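import Mathlib.Analysis.Normed.Operator.BanachSteinhaus
import Mathlib.Analysis.PSeries
import Mathlib.Analysis.RCLike.Basic

/-!
Passing from estimates on finitely supported vectors to the closed span.
-/

set_option autoImplicit false

open Finset Filter Topology

namespace Run7.h521.PA.Abs

/-- adding `∑_{n ∈ A} ε n e n` to `y` -/
noncomputable def addOn {𝕜 : Type} (y : ℕ → 𝕜) (A : Finset ℕ) (ε : ℕ → 𝕜) (n : ℕ) : 𝕜 :=
  if n ∈ A then ε n else y n

variable {𝕜 : Type} [RCLike 𝕜] {F : Type} [NormedAddCommGroup F] [NormedSpace 𝕜 F]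

/-- finite combinations -/
def fs (E : ℕ → F) (v : ℕ → 𝕜) (N : ℕ) : F := ∑ n ∈ range N, v n • E n

/-- The estimates on finitely supported vectors that are needed. -/
structure Data (𝕜 : Type) [RCLike 𝕜] {F : Type} [NormedAddCommGroup F] [NormedSpace 𝕜 F]
    (E : ℕ → F) (c : ℕ → F →L[𝕜] 𝕜) : Prop where
  biorth : ∀ n j, c n (E j) = if n = j then 1 else 0
  norm_E : ∀ n, ‖E n‖ ≤ 2
  norm_c : ∀ n x, ‖c n x‖ ≤ ‖x‖
  mono : ∀ (v : ℕ → 𝕜) (N N' : ℕ), N ≤ N' → ‖fs E v N‖ ≤ 4 * ‖fs E v N'‖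
  propA : ∀ (y : ℕ → 𝕜) (A B : Finset ℕ) (ε η : ℕ → 𝕜) (N : ℕ), A ⊆ range N → B ⊆ range N →
    Disjoint A B → A.card = B.card → (∀ n, ‖y n‖ ≤ 1) → (∀ n ∈ A, y n = 0) → (∀ n ∈ B, y n = 0) →
    (∀ n ∈ A, ‖ε n‖ = 1) → (∀ n ∈ B, ‖η n‖ = 1) →
    ‖fs E (addOn y A ε) N‖ = ‖fs E (addOn y B η) N‖
  test : ∃ u : ℕ → 𝕜, (∀ N, ‖fs E u N‖ ≤ 6) ∧ ∀ m : ℕ, (1 / 4 : ℝ) * ∑ j ∈ range m, 1 / ((j : ℝ) + 1) ≤
    ‖∑ j ∈ range m, u (2 * j) • E (2 * j)‖

/-- The space. -/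
def XS (𝕜 : Type) [RCLike 𝕜] {F : Type} [NormedAddCommGroup F] [NormedSpace 𝕜 F]
    (E : ℕ → F) : Submodule 𝕜 F :=
  (Submodule.span 𝕜 (Set.range E)).topologicalClosure

theorem completeSpace_XS [CompleteSpace F] (E : ℕ → F) : CompleteSpace (XS 𝕜 E) :=
  (Submodule.isClosed_topologicalClosure _).completeSpace_coe

theorem E_mem (E : ℕ → F) (n : ℕ) : E n ∈ XS 𝕜 E :=
  Submodule.le_topologicalClosure _ (Submodule.subset_span ⟨n, rfl⟩)

/-- The basis vectors. -/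
def e (𝕜 : Type) [RCLike 𝕜] {F : Type} [NormedAddCommGroup F] [NormedSpace 𝕜 F]
    (E : ℕ → F) (n : ℕ) : XS 𝕜 E := ⟨E n, E_mem E n⟩

/-- The coordinate functionals. -/
def e' (E : ℕ → F) (c : ℕ → F →L[𝕜] 𝕜) (n : ℕ) : XS 𝕜 E →L[𝕜] 𝕜 := (c n).comp (XS 𝕜 E).subtypeL

variable {E : ℕ → F} {c : ℕ → F →L[𝕜] 𝕜}

theorem e'_e (D : Data 𝕜 E c) (n j : ℕ) : e' E c n (e 𝕜 E j) = if n = j then 1 else 0 :=
  D.biorth n j

theorem norm_e_le (D : Data 𝕜 E c) (n : ℕ) : ‖e 𝕜 E n‖ ≤ 2 := D.norm_E n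

theorem norm_e'_le (D : Data 𝕜 E c) (n : ℕ) : ‖e' E c n‖ ≤ 1 := by
  refine ContinuousLinearMap.opNorm_le_bound _ (by norm_num) fun x => ?_
  rw [one_mul]
  exact D.norm_c n x

/-- finite combinations as elements of the space -/
def fin (E : ℕ → F) (v : ℕ → 𝕜) (N : ℕ) : XS 𝕜 E := ∑ n ∈ range N, v n • e 𝕜 E n

theorem coe_fin (v : ℕ → 𝕜) (N : ℕ) : ((fin E v N : XS 𝕜 E) : F) = fs E v N := by
  unfold fin fs
  rw [Submodule.coe_sum]
  rfl

theorem norm_fin (v : ℕ → 𝕜) (N : ℕ) : ‖fin E v N‖ = ‖fs E v N‖ := by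
  rw [← coe_fin]
  rfl

theorem e'_fin (D : Data 𝕜 E c) (v : ℕ → 𝕜) (N n : ℕ) :
    e' E c n (fin E v N) = if n < N then v n else 0 := by
  unfold fin
  rw [map_sum]
  simp only [map_smul, e'_e D, smul_eq_mul, mul_ite, mul_one, mul_zero]
  rw [Finset.sum_ite_eq]
  simp

/-- dense range -/
theorem dense_fin : Dense {x : XS 𝕜 E | ∃ v N, x = fin E v N} := by
  intro x
  rw [Metric.mem_closure_iff]
  intro δ hδ
  have hx : (x : F) ∈ closure ((Submodule.span 𝕜 (Set.range E) : Submodule 𝕜 F) : Set F) := x.2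
  rw [Metric.mem_closure_iff] at hx
  obtain ⟨y, hy, hxy⟩ := hx δ hδ
  obtain ⟨c, hc⟩ := (Finsupp.mem_span_range_iff_exists_finsupp).1 hy
  obtain ⟨N, hN⟩ := c.support.exists_nat_subset_range
  refine ⟨fin E c N, ⟨c, N, rfl⟩, ?_⟩
  have : ((fin E c N : XS 𝕜 E) : F) = y := by
    rw [coe_fin, ← hc]
    unfold fs
    rw [Finsupp.sum]
    refine (Finset.sum_subset hN fun n _ hn => ?_).symm
    rw [Finsupp.notMem_support_iff.1 hn, zero_smul]
  rw [Subtype.dist_eq, this]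
  exact hxy

theorem fin_mem_span (v : ℕ → 𝕜) (N : ℕ) : fin E v N ∈ Submodule.span 𝕜 (Set.range (e 𝕜 E)) := by
  unfold fin
  exact Submodule.sum_mem _ fun n _ => Submodule.smul_mem _ _ (Submodule.subset_span ⟨n, rfl⟩)

theorem dense_span (𝕜 : Type) [RCLike 𝕜] {F : Type} [NormedAddCommGroup F] [NormedSpace 𝕜 F]
    (E : ℕ → F) : Dense ((Submodule.span 𝕜 (Set.range (e 𝕜 E)) : Submodule 𝕜 (XS 𝕜 E)) :
    Set (XS 𝕜 E)) := by
  refine (dense_fin (𝕜 := 𝕜) (E := E)).mono ?_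
  rintro _ ⟨v, N, rfl⟩
  exact fin_mem_span v N

/-- partial sum operators on the space -/
noncomputable def PS (E : ℕ → F) (c : ℕ → F →L[𝕜] 𝕜) (A : Finset ℕ) : XS 𝕜 E →L[𝕜] XS 𝕜 E :=
  ∑ n ∈ A, (e' E c n).smulRight (e 𝕜 E n)

theorem PS_apply (A : Finset ℕ) (x : XS 𝕜 E) : PS E c A x = ∑ n ∈ A, e' E c n x • e 𝕜 E n := by
  unfold PS
  rw [_root_.sum_apply]
  rfl

theorem PS_range_fin (D : Data 𝕜 E c) (v : ℕ → 𝕜) (N m : ℕ) :
    PS E c (range m) (fin E v N) = fin E (fun n => if n < N then v n else 0) m := by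
  rw [PS_apply]
  have h := fun n => e'_fin D v N n
  simp only [h]
  rfl

theorem fin_ext_zero (v : ℕ → 𝕜) {N N' : ℕ} (h : N ≤ N') :
    fin E (fun n => if n < N then v n else 0) N' = fin E v N := by
  unfold fin
  rw [← Finset.sum_subset (Finset.range_mono h)]
  · apply Finset.sum_congr rfl
    intro n hn
    simp only [Finset.mem_range.1 hn, if_true]
  · intro n _ hn
    have : ¬ n < N := fun h => hn (Finset.mem_range.2 h)
    simp only [this, if_false, zero_smul]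

theorem norm_PS_range_le (D : Data 𝕜 E c) (m : ℕ) (x : XS 𝕜 E) :
    ‖PS E c (range m) x‖ ≤ 4 * ‖x‖ := by
  have hcl : IsClosed {x : XS 𝕜 E | ‖PS E c (range m) x‖ ≤ 4 * ‖x‖} :=
    isClosed_le (by fun_prop) (by fun_prop)
  have : closure {x : XS 𝕜 E | ∃ v N, x = fin E v N} ⊆
      {x : XS 𝕜 E | ‖PS E c (range m) x‖ ≤ 4 * ‖x‖} := by
    apply closure_minimal _ hcl
    rintro _ ⟨v, N, rfl⟩
    change ‖PS E c (range m) (fin E v N)‖ ≤ 4 * ‖fin E v N‖
    rw [PS_range_fin D]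
    rcases le_total N m with h | h
    · rw [fin_ext_zero v h]
      linarith [norm_nonneg (fin E v N)]
    · have h1 : fin E (fun n => if n < N then v n else 0) m = fin E v m := by
        unfold fin
        apply Finset.sum_congr rfl
        intro n hn
        have h2 := Finset.mem_range.1 hn
        have : n < N := by omega
        simp only [this, if_true]
      rw [h1, norm_fin, norm_fin]
      exact D.mono v m N h
  exact this (dense_fin x)

theorem tendsto_PS (D : Data 𝕜 E c) (x : XS 𝕜 E) :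
    Tendsto (fun m => PS E c (range m) x) atTop (𝓝 x) := by
  rw [Metric.tendsto_atTop]
  intro δ hδ
  have hx := dense_fin x
  rw [Metric.mem_closure_iff] at hx
  obtain ⟨_, ⟨v, N, rfl⟩, hxy⟩ := hx (δ / 5) (by positivity)
  refine ⟨N, fun m hm => ?_⟩
  have h1 : PS E c (range m) (fin E v N) = fin E v N := by
    rw [PS_range_fin D, fin_ext_zero v hm]
  have h2 := norm_PS_range_le D m (x - fin E v N)
  rw [dist_eq_norm] at hxy ⊢
  have h3 : PS E c (range m) x - x = PS E c (range m) (x - fin E v N) - (x - fin E v N) := by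
    rw [map_sub, h1]
    abel
  rw [h3]
  have h4 := norm_sub_le (PS E c (range m) (x - fin E v N)) (x - fin E v N)
  linarith

theorem tendsto_partial (D : Data 𝕜 E c) (x : XS 𝕜 E) :
    Tendsto (fun m => ∑ n ∈ range m, e' E c n x • e 𝕜 E n) atTop (𝓝 x) := by
  have := tendsto_PS D x
  simpa only [PS_apply] using this

theorem total (D : Data 𝕜 E c) (x : XS 𝕜 E) (h : ∀ n, e' E c n x = 0) : x = 0 := by
  have h1 := tendsto_partial D x
  simp only [h, zero_smul, Finset.sum_const_zero] at h1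
  exact (tendsto_nhds_unique h1 tendsto_const_nhds)

/-- the finite truncations of `x + ∑_{A} ε e` -/
theorem PS_add (x : XS 𝕜 E) (A : Finset ℕ) (ε : ℕ → 𝕜) (hxA : ∀ n ∈ A, e' E c n x = 0) {N : ℕ}
    (hA : A ⊆ range N) :
    PS E c (range N) x + ∑ n ∈ A, ε n • e 𝕜 E n = fin E (addOn (fun n => e' E c n x) A ε) N := by
  rw [PS_apply]
  unfold fin
  have h1 : ∑ n ∈ A, ε n • e 𝕜 E n = ∑ n ∈ range N, if n ∈ A then ε n • e 𝕜 E n else 0 := by
    rw [← Finset.sum_filter, Finset.filter_mem_eq_inter, Finset.inter_eq_right.2 hA]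
  rw [h1, ← Finset.sum_add_distrib]
  apply Finset.sum_congr rfl
  intro n _
  unfold addOn
  split_ifs with h
  · rw [hxA n h, zero_smul, zero_add]
  · rw [add_zero]

/-- Property (A). -/
theorem propertyA (D : Data 𝕜 E c) (x : XS 𝕜 E) (A B : Finset ℕ) (ε η : ℕ → 𝕜)
    (hx : ∀ n, ‖e' E c n x‖ ≤ 1)
    (hcard : A.card = B.card) (hAB : Disjoint A B) (hxA : ∀ n ∈ A, e' E c n x = 0)
    (hxB : ∀ n ∈ B, e' E c n x = 0) (hε : ∀ n ∈ A, ‖ε n‖ = 1) (hη : ∀ n ∈ B, ‖η n‖ = 1) :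
    ‖x + ∑ n ∈ A, ε n • e 𝕜 E n‖ = ‖x + ∑ n ∈ B, η n • e 𝕜 E n‖ := by
  have h1 : Tendsto (fun N => ‖PS E c (range N) x + ∑ n ∈ A, ε n • e 𝕜 E n‖) atTop
      (𝓝 ‖x + ∑ n ∈ A, ε n • e 𝕜 E n‖) :=
    ((tendsto_PS D x).add tendsto_const_nhds).norm
  have h2 : Tendsto (fun N => ‖PS E c (range N) x + ∑ n ∈ B, η n • e 𝕜 E n‖) atTop
      (𝓝 ‖x + ∑ n ∈ B, η n • e 𝕜 E n‖) :=
    ((tendsto_PS D x).add tendsto_const_nhds).norm
  obtain ⟨N, hN⟩ := (A ∪ B).exists_nat_subset_range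
  have h3 : (fun N => ‖PS E c (range N) x + ∑ n ∈ A, ε n • e 𝕜 E n‖) =ᶠ[atTop]
      fun N => ‖PS E c (range N) x + ∑ n ∈ B, η n • e 𝕜 E n‖ := by
    filter_upwards [eventually_ge_atTop N] with m hm
    have hA : A ⊆ range m := (Finset.subset_union_left.trans hN).trans (Finset.range_mono hm)
    have hB : B ⊆ range m := (Finset.subset_union_right.trans hN).trans (Finset.range_mono hm)
    rw [PS_add x A ε hxA hA, PS_add x B η hxB hB, norm_fin, norm_fin]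
    exact D.propA _ A B ε η m hA hB hAB hcard hx hxA hxB hε hη
  exact tendsto_nhds_unique (h1.congr' h3) h2

/-- The basis is not unconditional. -/
theorem not_unconditional [CompleteSpace F] (D : Data 𝕜 E c) :
    ¬ ∀ x : XS 𝕜 E, HasSum (fun n => e' E c n x • e 𝕜 E n) x := by
  have : CompleteSpace (XS 𝕜 E) := completeSpace_XS E
  intro h
  have hb : ∀ x : XS 𝕜 E, ∃ C, ∀ A : Finset ℕ, ‖PS E c A x‖ ≤ C := by
    intro x
    have h1 : Tendsto (fun A : Finset ℕ => ∑ n ∈ A, e' E c n x • e 𝕜 E n) atTop (𝓝 x) := h x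
    have h2 := h1.norm.eventually (gt_mem_nhds (lt_add_one ‖x‖))
    obtain ⟨A₀, hA₀⟩ := eventually_atTop.1 h2
    -- a general set differs from a superset of `A₀` by a subset of `A₀`
    refine ⟨(‖x‖ + 1) + ∑ n ∈ A₀, ‖e' E c n x • e 𝕜 E n‖, fun A => ?_⟩
    have h3 := hA₀ (A₀ ∪ A) Finset.subset_union_left
    have h4 : ∑ n ∈ A, e' E c n x • e 𝕜 E n =
        ∑ n ∈ A₀ ∪ A, e' E c n x • e 𝕜 E n - ∑ n ∈ A₀ \ A, e' E c n x • e 𝕜 E n := by
      rw [eq_sub_iff_add_eq, ← Finset.sum_union Finset.disjoint_sdiff]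
      congr 1
      rw [Finset.union_sdiff_self_eq_union, Finset.union_comm]
    rw [PS_apply, h4]
    have h5 : ‖∑ n ∈ A₀ \ A, e' E c n x • e 𝕜 E n‖ ≤ ∑ n ∈ A₀, ‖e' E c n x • e 𝕜 E n‖ :=
      (norm_sum_le _ _).trans (Finset.sum_le_sum_of_subset_of_nonneg Finset.sdiff_subset
        fun _ _ _ => norm_nonneg _)
    have h6 := norm_sub_le (∑ n ∈ A₀ ∪ A, e' E c n x • e 𝕜 E n)
      (∑ n ∈ A₀ \ A, e' E c n x • e 𝕜 E n)
    linarith
  obtain ⟨C, hC⟩ := banach_steinhaus hb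
  obtain ⟨u, hu1, hu2⟩ := D.test
  have hlarge := Real.tendsto_sum_range_one_div_nat_succ_atTop.eventually_gt_atTop (4 * (C * 6))
  obtain ⟨m, hm⟩ := hlarge.exists
  have h1 := hu2 m
  have h2 := (PS E c ((range m).image (fun j => 2 * j))).le_opNorm (fin E u (2 * m))
  have h3 : ‖fin E u (2 * m)‖ ≤ 6 := by
    rw [norm_fin]
    exact hu1 _
  have h4 := hC ((range m).image (fun j => 2 * j))
  have h5 : ‖PS E c ((range m).image (fun j => 2 * j))‖ * ‖fin E u (2 * m)‖ ≤ C * 6 :=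
    mul_le_mul h4 h3 (norm_nonneg _) ((norm_nonneg _).trans h4)
  have h6 : ‖PS E c ((range m).image (fun j => 2 * j)) (fin E u (2 * m))‖ =
      ‖∑ j ∈ range m, u (2 * j) • E (2 * j)‖ := by
    have h7 : PS E c ((range m).image (fun j => 2 * j)) (fin E u (2 * m)) =
        ∑ j ∈ range m, u (2 * j) • e 𝕜 E (2 * j) := by
      rw [PS_apply, Finset.sum_image (fun a _ b _ h => by simpa using h)]
      apply Finset.sum_congr rfl
      intro j hj
      have := Finset.mem_range.1 hj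
      rw [e'_fin D, if_pos (by omega)]
    rw [h7, Submodule.norm_coe (∑ j ∈ range m, u (2 * j) • e 𝕜 E (2 * j)) |>.symm,
      Submodule.coe_sum]
    rfl
  rw [h6] at h2
  linarith

end Run7.h521.PA.Abs
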