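import Pool.Agent.Run7.h521.PA.Final

/-!
# Property (A) does not imply unconditionality (not a hand-in: known, and weaker than the starting files MP_2eb999_an.ConditionalPropertyA, MP_65ccae_an.ReflexivePropertyA)

For `𝕜 = ℝ` and for `𝕜 = ℂ` there is a Banach space over `𝕜` with a semi-normalized Markushevich
basis (even a Schauder basis) that has Property (A) and is not unconditional.
-/

set_option autoImplicit false

open Finset Filter Topology

namespace Pool.Agent.Run7.h521.PA.Answer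

/-- `x` is a semi-normalized Markushevich basis of `X` with biorthogonal functionals `x'`: the span
of the `x n` is dense, the `x' n` are biorthogonal to the `x n` and separate the points of `X`, and
both families are bounded in norm. -/
structure IsBasis {𝕜 X : Type} [RCLike 𝕜] [NormedAddCommGroup X] [NormedSpace 𝕜 X]
    (x : ℕ → X) (x' : ℕ → X →L[𝕜] 𝕜) : Prop where
  dense : Dense ((Submodule.span 𝕜 (Set.range x) : Submodule 𝕜 X) : Set X)
  biorthogonal : ∀ n j, x' n (x j) = if n = j then 1 else 0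
  separating : ∀ v : X, (∀ n, x' n v = 0) → v = 0
  bounded : ∃ C : ℝ, ∀ n, ‖x n‖ ≤ C ∧ ‖x' n‖ ≤ C

/-- Property (A): if all coefficients of `v` have modulus at most one, `A` and `B` are disjoint
finite sets with equally many elements, both disjoint from the support of `v`, and `ε`, `η` have
modulus one on `A`, `B`, then `v + ∑_{n ∈ A} ε n x n` and `v + ∑_{n ∈ B} η n x n` have the same
norm. -/
def PropertyA {𝕜 X : Type} [RCLike 𝕜] [NormedAddCommGroup X] [NormedSpace 𝕜 X]
    (x : ℕ → X) (x' : ℕ → X →L[𝕜] 𝕜) : Prop :=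
  ∀ (v : X) (A B : Finset ℕ) (ε η : ℕ → 𝕜), (∀ n, ‖x' n v‖ ≤ 1) → A.card = B.card →
    Disjoint A B → (∀ n ∈ A, x' n v = 0) → (∀ n ∈ B, x' n v = 0) →
    (∀ n ∈ A, ‖ε n‖ = 1) → (∀ n ∈ B, ‖η n‖ = 1) →
    ‖v + ∑ n ∈ A, ε n • x n‖ = ‖v + ∑ n ∈ B, η n • x n‖

/-- The basis is unconditional: for every `v` the series `∑ x' n v • x n` converges
unconditionally to `v`. -/
def IsUnconditional {𝕜 X : Type} [RCLike 𝕜] [NormedAddCommGroup X] [NormedSpace 𝕜 X]
    (x : ℕ → X) (x' : ℕ → X →L[𝕜] 𝕜) : Prop :=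
  ∀ v : X, HasSum (fun n => x' n v • x n) v

/-- Over both scalar fields there is a Banach space with a basis that has Property (A) and is not
unconditional; moreover the basis is a Schauder basis. -/
theorem result (𝕜 : Type) [RCLike 𝕜] :
    ∃ (X : Type) (_ : NormedAddCommGroup X) (_ : NormedSpace 𝕜 X) (_ : CompleteSpace X)
      (x : ℕ → X) (x' : ℕ → X →L[𝕜] 𝕜),
      IsBasis x x' ∧
      (∀ v : X, Tendsto (fun N => ∑ n ∈ range N, x' n v • x n) atTop (𝓝 v)) ∧
      PropertyA x x' ∧ ¬ IsUnconditional x x' := by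
  let E : ℕ → lp (fun _ : Run7.h521.PA.Idx 𝕜 => 𝕜) ⊤ := Run7.h521.PA.E
  have D : Run7.h521.PA.Abs.Data 𝕜 E (Run7.h521.PA.coord 𝕜) := Run7.h521.PA.data 𝕜
  refine ⟨Run7.h521.PA.Abs.XS 𝕜 E, inferInstance, inferInstance,
    Run7.h521.PA.Abs.completeSpace_XS E, Run7.h521.PA.Abs.e 𝕜 E,
    Run7.h521.PA.Abs.e' E (Run7.h521.PA.coord 𝕜), ?_, ?_, ?_, ?_⟩
  · exact ⟨Run7.h521.PA.Abs.dense_span 𝕜 E, Run7.h521.PA.Abs.e'_e D, Run7.h521.PA.Abs.total D,
      2, fun n => ⟨Run7.h521.PA.Abs.norm_e_le D n,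
        (Run7.h521.PA.Abs.norm_e'_le D n).trans (by norm_num)⟩⟩
  · exact Run7.h521.PA.Abs.tendsto_partial D
  · exact Run7.h521.PA.Abs.propertyA D
  · exact Run7.h521.PA.Abs.not_unconditional D

end Pool.Agent.Run7.h521.PA.Answer
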