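import Pool.Agent.Run7.h521.PA.Test
import Pool.Agent.Run7.h521.PA.Abstract

/-!
The estimates for the concrete sequence of vectors, in the form needed for the closed span.
-/

set_option autoImplicit false

open Finset Filter Topology
open scoped ENNReal

namespace Run7.h521.PA

variable (𝕜 : Type) [RCLike 𝕜]

/-- The index of the functional `2 s` times the coordinate `n` plus a tail. -/
noncomputable def idx (s : 𝕜) (hs : ‖s‖ ≤ 1) (n : ℕ) : Idx 𝕜 :=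
  ⟨1, {n}, fun _ => s, by simp, fun _ => hs⟩

/-- coordinate functional on the ambient space -/
noncomputable def coord (n : ℕ) : lp (fun _ : Idx 𝕜 => 𝕜) ∞ →L[𝕜] 𝕜 :=
  (1 / 4 : 𝕜) • (lp.evalCLM 𝕜 (fun _ : Idx 𝕜 => 𝕜) ∞ (idx 𝕜 1 (by simp) n) -
    lp.evalCLM 𝕜 (fun _ : Idx 𝕜 => 𝕜) ∞ (idx 𝕜 (-1) (by simp) n))

theorem coord_apply (n : ℕ) (x : lp (fun _ : Idx 𝕜 => 𝕜) ∞) :
    coord 𝕜 n x = (1 / 4 : 𝕜) * (x (idx 𝕜 1 (by simp) n) - x (idx 𝕜 (-1) (by simp) n)) := rfl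

theorem coord_E (n j : ℕ) : coord 𝕜 n (E j) = if n = j then 1 else 0 := by
  rw [coord_apply, E_apply, E_apply]
  unfold co idx
  by_cases h : n = j
  · subst h
    simp only [Finset.mem_singleton, if_true, Nat.cast_one, Real.sqrt_one, div_one, mul_one,
      mul_neg, sub_neg_eq_add, RCLike.ofReal_ofNat]
    norm_num
  · have h' : ¬ j = n := fun h' => h h'.symm
    simp only [Finset.mem_singleton, h, h', if_false, sub_self, mul_zero]

theorem norm_coord_le (n : ℕ) (x : lp (fun _ : Idx 𝕜 => 𝕜) ∞) : ‖coord 𝕜 n x‖ ≤ ‖x‖ := by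
  rw [coord_apply, norm_mul]
  have h1 := lp.norm_apply_le_norm ENNReal.top_ne_zero x (idx 𝕜 1 (by simp) n)
  have h2 := lp.norm_apply_le_norm ENNReal.top_ne_zero x (idx 𝕜 (-1) (by simp) n)
  have h3 := norm_sub_le (x (idx 𝕜 1 (by simp) n)) (x (idx 𝕜 (-1) (by simp) n))
  have h4 : ‖(1 / 4 : 𝕜)‖ = 1 / 4 := by
    rw [norm_div, norm_one, RCLike.norm_ofNat]
  rw [h4]
  linarith [norm_nonneg x]

theorem norm_E_le (n : ℕ) : ‖(E n : lp (fun _ : Idx 𝕜 => 𝕜) ∞)‖ ≤ 2 :=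
  lp.norm_le_of_forall_le (by norm_num) fun i => norm_co_le i n

theorem fs_eq (v : ℕ → 𝕜) (N : ℕ) :
    Abs.fs (E : ℕ → lp (fun _ : Idx 𝕜 => 𝕜) ∞) v N = vec v N := rfl

/-- the projection of the test vector to the even coordinates is large -/
theorem even_ge (m : ℕ) :
    (1 / 4 : ℝ) * ∑ j ∈ range m, 1 / ((j : ℝ) + 1) ≤
      ‖∑ j ∈ range m, u 𝕜 (2 * j) • (E (2 * j) : lp (fun _ : Idx 𝕜 => 𝕜) ∞)‖ := by
  let i : Idx 𝕜 := ⟨0, ∅, fun _ => 0, by simp, fun _ => by simp⟩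
  have h2 := lp.norm_apply_le_norm ENNReal.top_ne_zero
    (∑ j ∈ range m, u 𝕜 (2 * j) • (E (2 * j) : lp (fun _ : Idx 𝕜 => 𝕜) ∞)) i
  have h3 : (∑ j ∈ range m, u 𝕜 (2 * j) • (E (2 * j) : lp (fun _ : Idx 𝕜 => 𝕜) ∞)) i =
      ((∑ j ∈ range m, r (2 * j) * w (2 * j) : ℝ) : 𝕜) := by
    clear h2
    induction m with
    | zero => simp
    | succ m ih =>
      rw [Finset.sum_range_succ, Finset.sum_range_succ, lp.coeFn_add, Pi.add_apply, ih,
        RCLike.ofReal_add, RCLike.ofReal_mul]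
      congr 1
      change u 𝕜 (2 * m) * co i (2 * m) = _
      unfold co u
      rw [if_neg (by simp [i]), if_pos (Nat.zero_le _), pow_mul, neg_one_sq, one_pow, one_mul]
  rw [h3, RCLike.norm_ofReal, abs_of_nonneg (Finset.sum_nonneg fun j _ =>
    mul_nonneg (r_nonneg _) (w_nonneg _))] at h2
  refine le_trans ?_ h2
  rw [Finset.mul_sum]
  exact Finset.sum_le_sum fun j _ => rw_ge j

theorem data : Abs.Data 𝕜 (E : ℕ → lp (fun _ : Idx 𝕜 => 𝕜) ∞) (coord 𝕜) where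
  biorth := coord_E 𝕜
  norm_E := norm_E_le 𝕜
  norm_c := norm_coord_le 𝕜
  mono v _ _ h := norm_vec_mono v h
  propA _ _ _ _ _ _ hA hB hAB hc hy hyA hyB hε hη := propA_eq hA hB hAB hc hy hyA hyB hε hη
  test := ⟨u 𝕜, norm_vec_u_le, even_ge 𝕜⟩

end Run7.h521.PA
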