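import Pool.Agent.Run7.h521.PA.Space

/-!
Property (A) for finite vectors, boundedness of partial sums, and the test vectors.
-/

set_option autoImplicit false

open Finset Filter Topology
open scoped ENNReal

namespace Run7.h521.PA

variable {𝕜 : Type} [RCLike 𝕜]

/-- adding `∑_{n ∈ A} ε n e n` to `y` -/
noncomputable def add1 (y : ℕ → 𝕜) (A : Finset ℕ) (ε : ℕ → 𝕜) (n : ℕ) : 𝕜 :=
  if n ∈ A then ε n else y n

theorem flat_add1 {y : ℕ → 𝕜} {A B : Finset ℕ} {ε η : ℕ → 𝕜} {N : ℕ} (T : Finset ℕ)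
    (hA : A ⊆ range N) (hB : B ⊆ range N) (hAB : Disjoint A B)
    (hyB : ∀ n ∈ B, y n = 0) (hε : ∀ n ∈ A, ‖ε n‖ = 1) (hη : ∀ n ∈ B, ‖η n‖ = 1) :
    flat (add1 y A ε) N T + B.card =
      flat (add1 y B η) N ((T \ A) ∪ B) + (A ∩ T).card := by
  have h1 : (B.card : ℝ) = ∑ n ∈ range N, if n ∈ B then (1 : ℝ) else 0 := by
    rw [Finset.sum_boole, Finset.filter_mem_eq_inter, Finset.inter_eq_right.2 hB]
  have h2 : ((A ∩ T).card : ℝ) = ∑ n ∈ range N, if n ∈ A ∧ n ∈ T then (1 : ℝ) else 0 := by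
    rw [Finset.sum_boole]
    congr 2
    ext n
    simp only [Finset.mem_inter, Finset.mem_filter]
    constructor
    · rintro ⟨h3, h4⟩
      exact ⟨hA h3, h3, h4⟩
    · rintro ⟨_, h3, h4⟩
      exact ⟨h3, h4⟩
  rw [h1, h2]
  unfold flat
  rw [← Finset.sum_add_distrib, ← Finset.sum_add_distrib]
  apply Finset.sum_congr rfl
  intro n _
  unfold add1
  by_cases hnA : n ∈ A
  · have hnB : n ∉ B := Finset.disjoint_left.1 hAB hnA
    by_cases hnT : n ∈ T
    · simp [hnA, hnB, hnT, hε n hnA]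
    · simp [hnA, hnB, hnT]
  · by_cases hnB : n ∈ B
    · by_cases hnT : n ∈ T
      · simp [hnA, hnB, hnT, hη n hnB, hyB n hnB]
      · simp [hnA, hnB, hnT, hη n hnB]
    · by_cases hnT : n ∈ T
      · simp [hnA, hnB, hnT]
      · simp [hnA, hnB, hnT]

theorem flat_le_card {v : ℕ → 𝕜} {N : ℕ} (hv : ∀ n, ‖v n‖ ≤ 1) (T : Finset ℕ) :
    flat v N T ≤ T.card := by
  unfold flat
  calc (∑ n ∈ range N, if n ∈ T then ‖v n‖ else 0)
      ≤ ∑ n ∈ range N, if n ∈ T then (1 : ℝ) else 0 := by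
        apply Finset.sum_le_sum
        intro n _
        split_ifs
        · exact hv n
        · exact le_refl _
    _ = ((range N).filter (· ∈ T)).card := by rw [Finset.sum_boole]
    _ ≤ T.card := by
        have : (range N).filter (· ∈ T) ⊆ T := fun n hn => (Finset.mem_filter.1 hn).2
        exact_mod_cast Finset.card_le_card this

theorem tail_add1 {y : ℕ → 𝕜} {A B : Finset ℕ} {ε η : ℕ → 𝕜} {N : ℕ} (M : ℕ) (T : Finset ℕ)
    (hAB : Disjoint A B) (hy : ∀ n, ‖y n‖ ≤ 1)
    (hyA : ∀ n ∈ A, y n = 0) (hyB : ∀ n ∈ B, y n = 0) (hε : ∀ n ∈ A, ‖ε n‖ = 1) :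
    ‖tail (add1 y A ε) N M T‖ ≤
      ‖tail (add1 y B η) N (M + (A \ T).card) ((T \ A) ∪ B)‖ +
        2 * (√((M + (A \ T).card : ℕ) : ℝ) - √(M : ℝ)) := by
  set a := (A \ T).card with ha
  have hd : ‖tail (add1 y A ε) N M T - tail (add1 y B η) N (M + a) ((T \ A) ∪ B)‖ ≤
      ∑ n ∈ range N, ((if n ∈ A \ T ∧ M ≤ n then w n else 0) +
        (if M ≤ n ∧ n < M + a then w n else 0)) := by
    unfold tail
    rw [← Finset.sum_sub_distrib]
    refine (norm_sum_le _ _).trans (Finset.sum_le_sum fun n _ => ?_)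
    have hw : ‖((w n : ℝ) : 𝕜)‖ = w n := by
      rw [RCLike.norm_ofReal, abs_of_nonneg (w_nonneg n)]
    have hw0 := w_nonneg n
    unfold add1
    by_cases hnA : n ∈ A
    · have hnB : n ∉ B := Finset.disjoint_left.1 hAB hnA
      by_cases hnT : n ∈ T
      · have h1 : ¬ (M ≤ n ∧ n ∉ T) := fun h => h.2 hnT
        rw [if_neg h1]
        by_cases h2 : M + a ≤ n ∧ n ∉ (T \ A) ∪ B
        · rw [if_pos h2, if_neg hnB, hyA n hnA]
          simp only [zero_mul, sub_self, norm_zero]
          split_ifs <;> positivity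
        · rw [if_neg h2]
          simp only [sub_self, norm_zero]
          split_ifs <;> positivity
      · have h0 : (if M + a ≤ n ∧ n ∉ (T \ A) ∪ B then
            (if n ∈ B then η n else y n) * ((w n : ℝ) : 𝕜) else 0) = 0 := by
          split_ifs
          · rw [hyA n hnA, zero_mul]
          · rfl
        rw [h0, sub_zero, if_pos hnA]
        by_cases h1 : M ≤ n
        · rw [if_pos ⟨h1, hnT⟩, if_pos ⟨Finset.mem_sdiff.2 ⟨hnA, hnT⟩, h1⟩, norm_mul, hε n hnA, hw,
            one_mul]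
          have : 0 ≤ (if M ≤ n ∧ n < M + a then w n else 0) := by
            split_ifs <;> first | exact hw0 | exact le_refl _
          linarith
        · rw [if_neg (fun h => h1 h.1), norm_zero]
          split_ifs <;> positivity
    · by_cases hnB : n ∈ B
      · have h0 : (if M + a ≤ n ∧ n ∉ (T \ A) ∪ B then
            (if n ∈ B then η n else y n) * ((w n : ℝ) : 𝕜) else 0) = 0 := by
          rw [if_neg]
          rintro ⟨_, h⟩
          exact h (Finset.mem_union_right _ hnB)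
        rw [h0, sub_zero, if_neg hnA, hyB n hnB]
        simp only [zero_mul, ite_self, norm_zero]
        split_ifs <;> positivity
      · rw [if_neg hnA, if_neg hnB]
        have hsplit : n ∉ (T \ A) ∪ B ↔ n ∉ T := by
          simp [hnA, hnB]
        simp only [hsplit]
        by_cases hnT : n ∈ T
        · have h1 : ¬ (M ≤ n ∧ n ∉ T) := fun h => h.2 hnT
          have h2 : ¬ (M + a ≤ n ∧ n ∉ T) := fun h => h.2 hnT
          rw [if_neg h1, if_neg h2, sub_self, norm_zero]
          split_ifs <;> positivity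
        · by_cases h1 : M ≤ n
          · by_cases h2 : M + a ≤ n
            · rw [if_pos ⟨h1, hnT⟩, if_pos ⟨h2, hnT⟩, sub_self, norm_zero]
              split_ifs <;> positivity
            · rw [if_pos ⟨h1, hnT⟩, if_neg (fun h => h2 h.1), sub_zero, norm_mul, hw]
              rw [if_neg (fun h => hnA (Finset.mem_sdiff.1 h.1).1), if_pos ⟨h1, by omega⟩, zero_add]
              calc ‖y n‖ * w n ≤ 1 * w n := mul_le_mul_of_nonneg_right (hy n) hw0
                _ = w n := one_mul _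
          · have h2 : ¬ M + a ≤ n := by omega
            rw [if_neg (fun h => h1 h.1), if_neg (fun h => h2 h.1), sub_self, norm_zero]
            split_ifs <;> positivity
  have hs : ∑ n ∈ range N, ((if n ∈ A \ T ∧ M ≤ n then w n else 0) +
        (if M ≤ n ∧ n < M + a then w n else 0)) ≤
      2 * (√((M + a : ℕ) : ℝ) - √(M : ℝ)) := by
    rw [Finset.sum_add_distrib]
    have h1 : (∑ n ∈ range N, if n ∈ A \ T ∧ M ≤ n then w n else 0) ≤
        √((M + a : ℕ) : ℝ) - √(M : ℝ) := by
      rw [← Finset.sum_filter]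
      have h2 := sum_set_w M ((range N).filter (fun n => n ∈ A \ T ∧ M ≤ n))
        (fun n hn => (Finset.mem_filter.1 hn).2.2)
      have h3 : ((range N).filter (fun n => n ∈ A \ T ∧ M ≤ n)).card ≤ a := by
        rw [ha]
        exact Finset.card_le_card fun n hn => (Finset.mem_filter.1 hn).2.1
      have h4 : √((M + ((range N).filter (fun n => n ∈ A \ T ∧ M ≤ n)).card : ℕ) : ℝ) ≤
          √((M + a : ℕ) : ℝ) := by
        apply Real.sqrt_le_sqrt
        exact_mod_cast Nat.add_le_add_left h3 M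
      linarith
    have h2 : (∑ n ∈ range N, if M ≤ n ∧ n < M + a then w n else 0) ≤
        √((M + a : ℕ) : ℝ) - √(M : ℝ) := by
      rw [← Finset.sum_filter]
      have h2 := sum_set_w M ((range N).filter (fun n => M ≤ n ∧ n < M + a))
        (fun n hn => (Finset.mem_filter.1 hn).2.1)
      have h3 : ((range N).filter (fun n => M ≤ n ∧ n < M + a)).card ≤ a := by
        have : (range N).filter (fun n => M ≤ n ∧ n < M + a) ⊆ Finset.Ico M (M + a) := fun n hn =>
          Finset.mem_Ico.2 (Finset.mem_filter.1 hn).2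
        refine (Finset.card_le_card this).trans ?_
        rw [Nat.card_Ico]
        omega
      have h4 : √((M + ((range N).filter (fun n => M ≤ n ∧ n < M + a)).card : ℕ) : ℝ) ≤
          √((M + a : ℕ) : ℝ) := by
        apply Real.sqrt_le_sqrt
        exact_mod_cast Nat.add_le_add_left h3 M
      linarith
    linarith
  have hn := norm_le_norm_add_norm_sub' (tail (add1 y A ε) N M T)
    (tail (add1 y B η) N (M + a) ((T \ A) ∪ B))
  linarith

/-- Half of Property (A) for finite vectors. -/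
theorem propA_le {y : ℕ → 𝕜} {A B : Finset ℕ} {ε η : ℕ → 𝕜} {N : ℕ}
    (hA : A ⊆ range N) (hB : B ⊆ range N) (hAB : Disjoint A B) (hcard : A.card = B.card)
    (hy : ∀ n, ‖y n‖ ≤ 1) (hyA : ∀ n ∈ A, y n = 0) (hyB : ∀ n ∈ B, y n = 0)
    (hε : ∀ n ∈ A, ‖ε n‖ = 1) (hη : ∀ n ∈ B, ‖η n‖ = 1) :
    ‖vec (add1 y A ε) N‖ ≤ ‖vec (add1 y B η) N‖ := by
  refine norm_vec_le _ _ (norm_nonneg _) fun M T hT => ?_
  have hc1 : (A \ T).card + (A ∩ T).card = A.card := Finset.card_sdiff_add_card_inter A T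
  have hc2 : (T \ A).card + (A ∩ T).card = T.card := by
    rw [Finset.inter_comm]
    exact Finset.card_sdiff_add_card_inter T A
  have hT' : ((T \ A) ∪ B).card ≤ M + (A \ T).card := by
    have := Finset.card_union_le (T \ A) B
    omega
  have h1 := le_norm_vec (add1 y B η) N (M + (A \ T).card) ((T \ A) ∪ B) hT'
  have h2 := tail_add1 (η := η) (N := N) M T hAB hy hyA hyB hε
  have h3 := flat_add1 (N := N) T hA hB hAB hyB hε hη
  have hv : ∀ n, ‖add1 y A ε n‖ ≤ 1 := by
    intro n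
    unfold add1
    split_ifs with h
    · exact (hε n h).le
    · exact hy n
  have h4 : flat (add1 y A ε) N T ≤ M := (flat_le_card hv T).trans (by exact_mod_cast hT)
  have h5 := key_scalar M (A \ T).card (flat_nonneg (add1 y A ε) N T) h4
  have h6 : flat (add1 y B η) N ((T \ A) ∪ B) = flat (add1 y A ε) N T + ((A \ T).card : ℝ) := by
    have : ((A \ T).card : ℝ) + (A ∩ T).card = B.card := by
      rw [← hcard]
      exact_mod_cast hc1
    linarith
  rw [h6] at h1
  linarith

theorem propA_eq {y : ℕ → 𝕜} {A B : Finset ℕ} {ε η : ℕ → 𝕜} {N : ℕ}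
    (hA : A ⊆ range N) (hB : B ⊆ range N) (hAB : Disjoint A B) (hcard : A.card = B.card)
    (hy : ∀ n, ‖y n‖ ≤ 1) (hyA : ∀ n ∈ A, y n = 0) (hyB : ∀ n ∈ B, y n = 0)
    (hε : ∀ n ∈ A, ‖ε n‖ = 1) (hη : ∀ n ∈ B, ‖η n‖ = 1) :
    ‖vec (add1 y A ε) N‖ = ‖vec (add1 y B η) N‖ :=
  le_antisymm (propA_le hA hB hAB hcard hy hyA hyB hε hη)
    (propA_le hB hA hAB.symm hcard.symm hy hyB hyA hη hε)

end Run7.h521.PA
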