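import Pool.Agent.Run7.h521.PA.Weights

/-!
The functionals and the norm of finitely supported vectors.
-/

set_option autoImplicit false

open Finset Filter Topology
open scoped ENNReal

namespace Run7.h521.PA

variable {𝕜 : Type} [RCLike 𝕜]

/-- The index set of the norming functionals: a number `M`, a set `T` of at most `M` indices and
scalars `ε n` of modulus at most one. -/
structure Idx (𝕜 : Type) [RCLike 𝕜] where
  /-- the threshold -/
  M : ℕ
  /-- the flat part -/
  T : Finset ℕ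
  /-- the signs on the flat part -/
  ε : ℕ → 𝕜
  card_le : T.card ≤ M
  norm_le : ∀ n, ‖ε n‖ ≤ 1

/-- The coefficients of the functional with index `i`. -/
noncomputable def co (i : Idx 𝕜) (n : ℕ) : 𝕜 :=
  if n ∈ i.T then ((2 / √(i.M : ℝ) : ℝ) : 𝕜) * i.ε n
  else if i.M ≤ n then ((w n : ℝ) : 𝕜) else 0

theorem norm_co_le (i : Idx 𝕜) (n : ℕ) : ‖co i n‖ ≤ 2 := by
  unfold co
  split_ifs with h1 h2
  · have hM : 1 ≤ i.M := (Finset.card_pos.2 ⟨n, h1⟩).trans_le i.card_le
    have h3 : (1 : ℝ) ≤ √(i.M : ℝ) := by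
      rw [Real.one_le_sqrt]
      exact_mod_cast hM
    rw [norm_mul, RCLike.norm_ofReal, abs_of_nonneg (by positivity)]
    have h4 : 2 / √(i.M : ℝ) ≤ 2 := div_le_self (by norm_num) h3
    calc 2 / √(i.M : ℝ) * ‖i.ε n‖ ≤ 2 * 1 :=
          mul_le_mul h4 (i.norm_le n) (norm_nonneg _) (by norm_num)
      _ = 2 := by norm_num
  · rw [RCLike.norm_ofReal, abs_of_nonneg (w_nonneg n)]
    linarith [w_le_one n]
  · simp

/-- The basis vectors inside the space of bounded functions on the index set. -/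
noncomputable def E (n : ℕ) : lp (fun _ : Idx 𝕜 => 𝕜) ∞ :=
  ⟨fun i => co i n, memℓp_infty ⟨2, by rintro _ ⟨i, rfl⟩; exact norm_co_le i n⟩⟩

theorem E_apply (n : ℕ) (i : Idx 𝕜) : (E n : lp (fun _ : Idx 𝕜 => 𝕜) ∞) i = co i n := rfl

/-- finite combinations -/
noncomputable def vec (v : ℕ → 𝕜) (N : ℕ) : lp (fun _ : Idx 𝕜 => 𝕜) ∞ :=
  ∑ n ∈ range N, v n • E n

theorem vec_apply (v : ℕ → 𝕜) (N : ℕ) (i : Idx 𝕜) :
    vec v N i = ∑ n ∈ range N, v n * co i n := by
  unfold vec
  induction N with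
  | zero => simp
  | succ N ih =>
    rw [Finset.sum_range_succ, Finset.sum_range_succ, lp.coeFn_add, Pi.add_apply, ih]
    rfl

/-- the flat part -/
noncomputable def flat (v : ℕ → 𝕜) (N : ℕ) (T : Finset ℕ) : ℝ :=
  ∑ n ∈ range N, if n ∈ T then ‖v n‖ else 0

/-- the tail part -/
noncomputable def tail (v : ℕ → 𝕜) (N M : ℕ) (T : Finset ℕ) : 𝕜 :=
  ∑ n ∈ range N, if M ≤ n ∧ n ∉ T then v n * ((w n : ℝ) : 𝕜) else 0

theorem flat_nonneg (v : ℕ → 𝕜) (N : ℕ) (T : Finset ℕ) : 0 ≤ flat v N T := by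
  unfold flat
  apply Finset.sum_nonneg
  intro n _
  split_ifs
  · exact norm_nonneg _
  · exact le_refl _

/-- upper bound for the value of a functional -/
theorem norm_vec_apply_le (v : ℕ → 𝕜) (N : ℕ) (i : Idx 𝕜) :
    ‖vec v N i‖ ≤ 2 / √(i.M : ℝ) * flat v N i.T + ‖tail v N i.M i.T‖ := by
  have h : vec v N i = (∑ n ∈ range N, if n ∈ i.T then v n * co i n else 0) +
      tail v N i.M i.T := by
    rw [vec_apply]
    unfold tail
    rw [← Finset.sum_add_distrib]
    apply Finset.sum_congr rfl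
    intro n _
    unfold co
    by_cases h1 : n ∈ i.T
    · simp [h1]
    · by_cases h2 : i.M ≤ n <;> simp [h1, h2]
  rw [h]
  refine (norm_add_le _ _).trans (add_le_add ?_ le_rfl)
  unfold flat
  rw [Finset.mul_sum]
  refine (norm_sum_le _ _).trans (Finset.sum_le_sum fun n _ => ?_)
  split_ifs with h1
  · unfold co
    rw [if_pos h1, norm_mul, norm_mul, RCLike.norm_ofReal, abs_of_nonneg (by positivity)]
    calc ‖v n‖ * (2 / √(i.M : ℝ) * ‖i.ε n‖) = 2 / √(i.M : ℝ) * ‖v n‖ * ‖i.ε n‖ := by ring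
      _ ≤ 2 / √(i.M : ℝ) * ‖v n‖ * 1 :=
        mul_le_mul_of_nonneg_left (i.norm_le n) (by positivity)
      _ = _ := by ring
  · simp

/-- a scalar of modulus one aligned with `z` -/
noncomputable def dir (z : 𝕜) : 𝕜 := if z = 0 then 1 else z / (‖z‖ : 𝕜)

theorem norm_dir (z : 𝕜) : ‖dir z‖ = 1 := by
  unfold dir
  split_ifs with h
  · simp
  · rw [norm_div, RCLike.norm_ofReal, abs_of_nonneg (norm_nonneg _), div_self (norm_ne_zero_iff.2 h)]

theorem dir_mul (z : 𝕜) : dir z * (‖z‖ : 𝕜) = z := by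
  unfold dir
  split_ifs with h
  · simp [h]
  · have : (‖z‖ : 𝕜) ≠ 0 := by
      simpa using h
    field_simp

theorem conj_dir_mul (z : 𝕜) : (starRingEnd 𝕜) (dir z) * z = (‖z‖ : 𝕜) := by
  have h1 : (starRingEnd 𝕜) (dir z) * dir z = 1 := by
    rw [RCLike.conj_mul, norm_dir]
    simp
  calc (starRingEnd 𝕜) (dir z) * z = (starRingEnd 𝕜) (dir z) * (dir z * (‖z‖ : 𝕜)) := by
        rw [dir_mul]
    _ = ((starRingEnd 𝕜) (dir z) * dir z) * (‖z‖ : 𝕜) := by ring
    _ = (‖z‖ : 𝕜) := by rw [h1, one_mul]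

/-- lower bound for the norm -/
theorem le_norm_vec (v : ℕ → 𝕜) (N M : ℕ) (T : Finset ℕ) (hT : T.card ≤ M) :
    2 / √(M : ℝ) * flat v N T + ‖tail v N M T‖ ≤ ‖vec v N‖ := by
  let i : Idx 𝕜 := ⟨M, T, fun n => dir (tail v N M T) * (starRingEnd 𝕜) (dir (v n)), hT, fun n => by
    rw [norm_mul, norm_dir, RCLike.norm_conj, norm_dir, one_mul]⟩
  have h : vec v N i = dir (tail v N M T) *
      ((2 / √(M : ℝ) * flat v N T + ‖tail v N M T‖ : ℝ) : 𝕜) := by
    have h1 : vec v N i = (∑ n ∈ range N, if n ∈ T then v n * co i n else 0) +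
        tail v N M T := by
      rw [vec_apply]
      change _ = _ + ∑ n ∈ range N, if M ≤ n ∧ n ∉ T then v n * ((w n : ℝ) : 𝕜) else 0
      rw [← Finset.sum_add_distrib]
      apply Finset.sum_congr rfl
      intro n _
      by_cases h1 : n ∈ T
      · simp [h1]
      · have h1' : n ∉ i.T := h1
        unfold co
        rw [if_neg h1']
        by_cases h2 : M ≤ n
        · have h2' : i.M ≤ n := h2
          simp [h1, h2, h2']
        · have h2' : ¬ i.M ≤ n := h2
          simp [h1, h2, h2']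
    rw [h1]
    have h2 : (∑ n ∈ range N, if n ∈ T then v n * co i n else 0) =
        dir (tail v N M T) * ((2 / √(M : ℝ) * flat v N T : ℝ) : 𝕜) := by
      unfold flat
      rw [RCLike.ofReal_mul, RCLike.ofReal_sum, Finset.mul_sum, Finset.mul_sum]
      apply Finset.sum_congr rfl
      intro n _
      split_ifs with h1
      · have h1' : n ∈ i.T := h1
        unfold co
        rw [if_pos h1']
        change v n * (((2 / √(M : ℝ) : ℝ) : 𝕜) * (dir (tail v N M T) *
          (starRingEnd 𝕜) (dir (v n)))) = _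
        rw [← conj_dir_mul (v n)]
        ring
      · simp
    rw [h2, RCLike.ofReal_add, mul_add, dir_mul]
  have h3 := lp.norm_apply_le_norm ENNReal.top_ne_zero (vec v N) i
  rw [h, norm_mul, norm_dir, one_mul, RCLike.norm_ofReal, abs_of_nonneg] at h3
  · exact h3
  · have := flat_nonneg v N T
    positivity

theorem norm_vec_le (v : ℕ → 𝕜) (N : ℕ) {C : ℝ} (hC : 0 ≤ C)
    (h : ∀ (M : ℕ) (T : Finset ℕ), T.card ≤ M →
      2 / √(M : ℝ) * flat v N T + ‖tail v N M T‖ ≤ C) : ‖vec v N‖ ≤ C := by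
  refine lp.norm_le_of_forall_le hC fun i => ?_
  exact (norm_vec_apply_le v N i).trans (h i.M i.T i.card_le)

end Run7.h521.PA
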