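import Pool.Agent.Run7.h521.PA.PropA

/-!
Boundedness of partial sums, and the test vectors.
-/

set_option autoImplicit false

open Finset Filter Topology
open scoped ENNReal

namespace Run7.h521.PA

variable {𝕜 : Type} [RCLike 𝕜]

theorem norm_w (n : ℕ) : ‖((w n : ℝ) : 𝕜)‖ = w n := by
  rw [RCLike.norm_ofReal, abs_of_nonneg (w_nonneg n)]

theorem flat_mono (v : ℕ → 𝕜) {N N' : ℕ} (h : N ≤ N') (T : Finset ℕ) :
    flat v N T ≤ flat v N' T := by
  unfold flat
  apply Finset.sum_le_sum_of_subset_of_nonneg (Finset.range_mono h)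
  intro n _ _
  split_ifs
  · exact norm_nonneg _
  · exact le_refl _

theorem w_mul_flat_le (v : ℕ → 𝕜) (N M K : ℕ) (hMK : M ≤ K) (T : Finset ℕ) (hT : T.card ≤ M) :
    w K * flat v N T ≤ 2 / √(M : ℝ) * flat v N T := by
  have h0 := flat_nonneg v N T
  rcases Nat.eq_zero_or_pos M with h | h
  · have : T = ∅ := Finset.card_eq_zero.1 (by omega)
    subst this
    have : flat v N ∅ = 0 := by simp [flat]
    rw [this]
    simp
  · apply mul_le_mul_of_nonneg_right _ h0
    refine (w_anti hMK).trans ?_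
    have h1 : 0 < √(M : ℝ) := Real.sqrt_pos.2 (by exact_mod_cast h)
    rcases w_le M with h2 | h2
    · refine h2.trans ?_
      rw [div_le_div_iff₀ (by positivity) h1]
      linarith
    · omega

/-- partial sums are uniformly bounded -/
theorem norm_vec_mono (v : ℕ → 𝕜) {N N' : ℕ} (h : N ≤ N') : ‖vec v N‖ ≤ 4 * ‖vec v N'‖ := by
  refine norm_vec_le _ _ (by positivity) fun M T hT => ?_
  set L := ‖vec v N'‖ with hL
  have h1 := le_norm_vec v N' M T hT
  have hf0 := flat_nonneg v N' T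
  have hpos : 0 ≤ 2 / √(M : ℝ) := by positivity
  have hfl : 2 / √(M : ℝ) * flat v N T ≤ 2 / √(M : ℝ) * flat v N' T :=
    mul_le_mul_of_nonneg_left (flat_mono v h T) hpos
  have hm0 : 0 ≤ 2 / √(M : ℝ) * flat v N' T := mul_nonneg hpos hf0
  rcases le_total N M with hNM | hNM
  · have ht : tail v N M T = 0 := by
      unfold tail
      apply Finset.sum_eq_zero
      intro n hn
      rw [if_neg]
      rintro ⟨h2, _⟩
      have := Finset.mem_range.1 hn
      omega
    rw [ht, norm_zero]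
    have : 0 ≤ ‖tail v N' M T‖ := norm_nonneg _
    linarith [norm_nonneg (vec v N')]
  · have e1 : tail v N M T = tail v N' M T - tail v N' N T := by
      rw [eq_sub_iff_add_eq]
      unfold tail
      have h2 : (∑ n ∈ range N, if M ≤ n ∧ n ∉ T then v n * ((w n : ℝ) : 𝕜) else 0) =
          ∑ n ∈ range N', if n < N ∧ M ≤ n ∧ n ∉ T then v n * ((w n : ℝ) : 𝕜) else 0 := by
        rw [← Finset.sum_filter, ← Finset.sum_filter]
        apply Finset.sum_congr _ (fun _ _ => rfl)
        ext n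
        simp only [Finset.mem_filter, Finset.mem_range]
        constructor
        · rintro ⟨h3, h4⟩
          exact ⟨by omega, h3, h4⟩
        · rintro ⟨_, h3, h4⟩
          exact ⟨h3, h4⟩
      rw [h2, ← Finset.sum_add_distrib]
      apply Finset.sum_congr rfl
      intro n _
      by_cases h3 : n ∈ T
      · simp [h3]
      · by_cases h4 : n < N
        · have h5 : ¬ N ≤ n := by omega
          simp [h3, h4, h5]
        · have h5 : N ≤ n := by omega
          have h6 : M ≤ n := by omega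
          simp [h3, h4, h5, h6]
    have e2 : tail v N' N T = tail v N' N ∅ -
        ∑ n ∈ range N', if N ≤ n ∧ n ∈ T then v n * ((w n : ℝ) : 𝕜) else 0 := by
      rw [eq_sub_iff_add_eq]
      unfold tail
      rw [← Finset.sum_add_distrib]
      apply Finset.sum_congr rfl
      intro n _
      by_cases h3 : n ∈ T <;> by_cases h4 : N ≤ n <;> simp [h3, h4]
    have h2 := le_norm_vec v N' N ∅ (by simp)
    have h2' : flat v N' ∅ = 0 := by simp [flat]
    rw [h2', mul_zero, zero_add] at h2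
    have h3 : ‖∑ n ∈ range N', if N ≤ n ∧ n ∈ T then v n * ((w n : ℝ) : 𝕜) else 0‖ ≤
        w N * flat v N' T := by
      unfold flat
      rw [Finset.mul_sum]
      refine (norm_sum_le _ _).trans (Finset.sum_le_sum fun n _ => ?_)
      by_cases h3 : n ∈ T
      · by_cases h4 : N ≤ n
        · rw [if_pos ⟨h4, h3⟩, if_pos h3, norm_mul, norm_w, mul_comm]
          exact mul_le_mul_of_nonneg_right (w_anti h4) (norm_nonneg _)
        · rw [if_neg (fun h => h4 h.1), if_pos h3, norm_zero]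
          exact mul_nonneg (w_nonneg _) (norm_nonneg _)
      · rw [if_neg (fun h => h3 h.2), if_neg h3, norm_zero, mul_zero]
    have h4 := w_mul_flat_le v N' M N hNM T hT
    have h5 : ‖tail v N M T‖ ≤ ‖tail v N' M T‖ + (‖tail v N' N ∅‖ +
        ‖∑ n ∈ range N', if N ≤ n ∧ n ∈ T then v n * ((w n : ℝ) : 𝕜) else 0‖) := by
      rw [e1, e2]
      refine (norm_sub_le _ _).trans ?_
      gcongr
      exact norm_sub_le _ _
    have h6 : 0 ≤ ‖tail v N' M T‖ := norm_nonneg _
    linarith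

/-! ### test vectors -/

/-- alternating sums of decreasing sequences -/
theorem alt_sum {b : ℕ → ℝ} (hb : Antitone b) (h0 : ∀ n, 0 ≤ b n) (m : ℕ) :
    ∀ M, 0 ≤ ∑ k ∈ range m, (-1 : ℝ) ^ k * b (M + k) ∧
      ∑ k ∈ range m, (-1 : ℝ) ^ k * b (M + k) ≤ b M := by
  induction m with
  | zero => intro M; simp [h0 M]
  | succ m ih =>
    intro M
    rw [Finset.sum_range_succ']
    have h1 := ih (M + 1)
    have h2 : ∑ k ∈ range m, (-1 : ℝ) ^ (k + 1) * b (M + (k + 1)) =
        - ∑ k ∈ range m, (-1 : ℝ) ^ k * b (M + 1 + k) := by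
      rw [← Finset.sum_neg_distrib]
      apply Finset.sum_congr rfl
      intro k _
      rw [pow_succ, show M + (k + 1) = M + 1 + k by ring]
      ring
    rw [h2]
    have h3 := hb (Nat.le_succ M)
    simp only [pow_zero, one_mul, add_zero]
    constructor
    · linarith [h1.2, show b (M.succ) = b (M + 1) from rfl]
    · linarith [h1.1]

theorem inv_sqrt_le (n : ℕ) : 1 / √((n : ℝ) + 1) ≤ 2 * w n := by
  rw [w_eq]
  have h1 : 0 < √((n : ℝ) + 1) := Real.sqrt_pos.2 (by positivity)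
  have h2 : √(n : ℝ) ≤ √((n : ℝ) + 1) := Real.sqrt_le_sqrt (by linarith)
  have h3 : 0 ≤ √(n : ℝ) := Real.sqrt_nonneg _
  rw [mul_one_div, div_le_div_iff₀ h1 (by positivity)]
  linarith

/-- the modulus of the test vector -/
noncomputable def r (n : ℕ) : ℝ := 1 / √((n : ℝ) + 1)

theorem r_nonneg (n : ℕ) : 0 ≤ r n := by unfold r; positivity

theorem r_anti : Antitone r := by
  intro m n h
  unfold r
  have h1 : 0 < √((m : ℝ) + 1) := Real.sqrt_pos.2 (by positivity)
  have hc : (m : ℝ) ≤ n := by exact_mod_cast h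
  exact one_div_le_one_div_of_le h1 (Real.sqrt_le_sqrt (by linarith))

theorem r_le_one (n : ℕ) : r n ≤ 1 := by
  have h := r_anti (Nat.zero_le n)
  have h0 : r 0 = 1 := by simp [r]
  rwa [h0] at h

theorem rw_anti : Antitone fun n => r n * w n := fun _ _ h =>
  mul_le_mul (r_anti h) (w_anti h) (w_nonneg _) (r_nonneg _)

/-- the test vector with alternating signs -/
noncomputable def u (𝕜 : Type) [RCLike 𝕜] (n : ℕ) : 𝕜 := (((-1 : ℝ) ^ n * r n : ℝ) : 𝕜)

theorem norm_u (n : ℕ) : ‖u 𝕜 n‖ = r n := by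
  unfold u
  rw [RCLike.norm_ofReal, abs_mul, abs_pow, abs_neg, abs_one, one_pow, one_mul,
    abs_of_nonneg (r_nonneg n)]

theorem flat_u_le (N : ℕ) (T : Finset ℕ) : flat (u 𝕜) N T ≤ 2 * √(T.card : ℝ) := by
  unfold flat
  rw [← Finset.sum_filter]
  calc ∑ n ∈ (range N).filter (· ∈ T), ‖u 𝕜 n‖
      ≤ ∑ n ∈ T, r n := by
        simp only [norm_u]
        apply Finset.sum_le_sum_of_subset_of_nonneg
        · exact fun n hn => (Finset.mem_filter.1 hn).2
        · exact fun n _ _ => r_nonneg n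
    _ ≤ ∑ n ∈ T, 2 * w n := Finset.sum_le_sum fun n _ => inv_sqrt_le n
    _ = 2 * ∑ n ∈ T, w n := by rw [Finset.mul_sum]
    _ ≤ 2 * √(T.card : ℝ) := by
        have := sum_set_w 0 T (fun n _ => Nat.zero_le n)
        simp only [zero_add, Nat.cast_zero, Real.sqrt_zero, sub_zero] at this
        linarith

theorem tail_u_empty (N M : ℕ) : ‖tail (u 𝕜) N M ∅‖ ≤ 1 := by
  have h1 : tail (u 𝕜) N M ∅ =
      (((-1 : ℝ) ^ M * ∑ k ∈ range (N - M), (-1 : ℝ) ^ k * (r (M + k) * w (M + k)) : ℝ) : 𝕜) := by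
    unfold tail
    have h2 : (∑ n ∈ range N, if M ≤ n ∧ n ∉ (∅ : Finset ℕ) then u 𝕜 n * ((w n : ℝ) : 𝕜) else 0) =
        ∑ n ∈ Finset.Ico M N, u 𝕜 n * ((w n : ℝ) : 𝕜) := by
      rw [← Finset.sum_filter]
      apply Finset.sum_congr _ (fun _ _ => rfl)
      ext n
      simp only [Finset.mem_filter, Finset.mem_range, Finset.notMem_empty, not_false_eq_true,
        and_true, Finset.mem_Ico]
      tauto
    rw [h2, Finset.sum_Ico_eq_sum_range, Finset.mul_sum, RCLike.ofReal_sum]
    apply Finset.sum_congr rfl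
    intro k _
    unfold u
    rw [← RCLike.ofReal_mul]
    congr 1
    rw [pow_add]
    ring
  rw [h1, RCLike.norm_ofReal, abs_mul, abs_pow, abs_neg, abs_one, one_pow, one_mul]
  have h2 := alt_sum rw_anti (fun n => mul_nonneg (r_nonneg n) (w_nonneg n)) (N - M) M
  rw [abs_of_nonneg h2.1]
  refine h2.2.trans ?_
  calc r M * w M ≤ 1 * 1 := mul_le_mul (r_le_one M) (w_le_one M) (w_nonneg M) (by norm_num)
    _ = 1 := one_mul 1

theorem tail_u_le (N M : ℕ) (T : Finset ℕ) (hT : T.card ≤ M) : ‖tail (u 𝕜) N M T‖ ≤ 2 := by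
  have e1 : tail (u 𝕜) N M T = tail (u 𝕜) N M ∅ -
      ∑ n ∈ range N, if M ≤ n ∧ n ∈ T then u 𝕜 n * ((w n : ℝ) : 𝕜) else 0 := by
    rw [eq_sub_iff_add_eq]
    unfold tail
    rw [← Finset.sum_add_distrib]
    apply Finset.sum_congr rfl
    intro n _
    by_cases h3 : n ∈ T <;> by_cases h4 : M ≤ n <;> simp [h3, h4]
  have h2 : ‖∑ n ∈ range N, if M ≤ n ∧ n ∈ T then u 𝕜 n * ((w n : ℝ) : 𝕜) else 0‖ ≤ 1 := by
    rw [← Finset.sum_filter]
    refine (norm_sum_le _ _).trans ?_
    calc ∑ n ∈ (range N).filter (fun n => M ≤ n ∧ n ∈ T), ‖u 𝕜 n * ((w n : ℝ) : 𝕜)‖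
        ≤ ∑ n ∈ (range N).filter (fun n => M ≤ n ∧ n ∈ T), r M * w n := by
          apply Finset.sum_le_sum
          intro n hn
          rw [norm_mul, norm_u, norm_w]
          exact mul_le_mul_of_nonneg_right (r_anti (Finset.mem_filter.1 hn).2.1) (w_nonneg n)
      _ ≤ ∑ n ∈ T, r M * w n := by
          apply Finset.sum_le_sum_of_subset_of_nonneg
          · exact fun n hn => (Finset.mem_filter.1 hn).2.2
          · exact fun n _ _ => mul_nonneg (r_nonneg M) (w_nonneg n)
      _ = r M * ∑ n ∈ T, w n := by rw [Finset.mul_sum]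
      _ ≤ r M * √((M : ℝ) + 1) := by
          apply mul_le_mul_of_nonneg_left _ (r_nonneg M)
          have := sum_set_w 0 T (fun n _ => Nat.zero_le n)
          simp only [zero_add, Nat.cast_zero, Real.sqrt_zero, sub_zero] at this
          refine this.trans (Real.sqrt_le_sqrt ?_)
          have : (T.card : ℝ) ≤ M := by exact_mod_cast hT
          linarith
      _ = 1 := by
          unfold r
          have h1 : 0 < √((M : ℝ) + 1) := Real.sqrt_pos.2 (by positivity)
          field_simp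
  rw [e1]
  refine (norm_sub_le _ _).trans ?_
  linarith [tail_u_empty (𝕜 := 𝕜) N M]

/-- the test vectors are bounded -/
theorem norm_vec_u_le (N : ℕ) : ‖vec (u 𝕜) N‖ ≤ 6 := by
  refine norm_vec_le _ _ (by norm_num) fun M T hT => ?_
  have h1 := flat_u_le (𝕜 := 𝕜) N T
  have h2 := tail_u_le (𝕜 := 𝕜) N M T hT
  have h3 : 2 / √(M : ℝ) * flat (u 𝕜) N T ≤ 4 := by
    rcases Nat.eq_zero_or_pos M with h | h
    · subst h
      simp
    · have h4 : 0 < √(M : ℝ) := Real.sqrt_pos.2 (by exact_mod_cast h)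
      have h5 : √(T.card : ℝ) ≤ √(M : ℝ) := Real.sqrt_le_sqrt (by exact_mod_cast hT)
      calc 2 / √(M : ℝ) * flat (u 𝕜) N T ≤ 2 / √(M : ℝ) * (2 * √(M : ℝ)) :=
            mul_le_mul_of_nonneg_left (by linarith) (by positivity)
        _ = 4 := by field_simp; norm_num
  linarith

theorem rw_ge (j : ℕ) : (1 / 4 : ℝ) * (1 / ((j : ℝ) + 1)) ≤ r (2 * j) * w (2 * j) := by
  have h1 := inv_sqrt_le (2 * j)
  have h2 : 0 ≤ r (2 * j) := r_nonneg _
  have h3 : r (2 * j) * r (2 * j) = 1 / ((2 * j : ℕ) + 1 : ℝ) := by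
    unfold r
    rw [div_mul_div_comm, one_mul, Real.mul_self_sqrt (by positivity)]
  have h4 : r (2 * j) * r (2 * j) ≤ r (2 * j) * (2 * w (2 * j)) :=
    mul_le_mul_of_nonneg_left h1 h2
  have h5 : (1 / 2 : ℝ) * (1 / ((j : ℝ) + 1)) ≤ 1 / ((2 * j : ℕ) + 1 : ℝ) := by
    rw [one_div_mul_one_div]
    apply one_div_le_one_div_of_le (by positivity)
    push_cast
    linarith
  linarith

end Run7.h521.PA
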