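import Mathlib

/-!
The weights `w n = √(n+1) - √n` and elementary inequalities.
-/

set_option autoImplicit false

open Finset Filter Topology

namespace Run7.h521.PA

/-- the weights -/
noncomputable def w (n : ℕ) : ℝ := √((n : ℝ) + 1) - √(n : ℝ)

theorem w_nonneg (n : ℕ) : 0 ≤ w n := by
  unfold w
  have : √(n : ℝ) ≤ √((n : ℝ) + 1) := Real.sqrt_le_sqrt (by linarith)
  linarith

theorem w_eq (n : ℕ) : w n = 1 / (√((n : ℝ) + 1) + √(n : ℝ)) := by
  have h1 : 0 < √((n : ℝ) + 1) := Real.sqrt_pos.2 (by positivity)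
  have h2 : 0 ≤ √(n : ℝ) := Real.sqrt_nonneg _
  have h3 : √((n : ℝ) + 1) ^ 2 = (n : ℝ) + 1 := Real.sq_sqrt (by positivity)
  have h4 : √(n : ℝ) ^ 2 = (n : ℝ) := Real.sq_sqrt (by positivity)
  rw [eq_div_iff (by positivity)]
  unfold w
  linear_combination h3 - h4

theorem w_anti : Antitone w := by
  intro m n h
  rw [w_eq, w_eq]
  have h1 : 0 < √((m : ℝ) + 1) := Real.sqrt_pos.2 (by positivity)
  have h2 : 0 ≤ √(m : ℝ) := Real.sqrt_nonneg _
  have hc : (m : ℝ) ≤ n := by exact_mod_cast h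
  have h3 : √((m : ℝ) + 1) ≤ √((n : ℝ) + 1) := Real.sqrt_le_sqrt (by linarith)
  have h4 : √(m : ℝ) ≤ √(n : ℝ) := Real.sqrt_le_sqrt hc
  exact one_div_le_one_div_of_le (by positivity) (by linarith)

theorem w_le_one (n : ℕ) : w n ≤ 1 := by
  have h := w_anti (Nat.zero_le n)
  have h0 : w 0 = 1 := by simp [w]
  rwa [h0] at h

theorem w_le (n : ℕ) : w n ≤ 1 / (2 * √(n : ℝ)) ∨ n = 0 := by
  rcases Nat.eq_zero_or_pos n with h | h
  · exact Or.inr h
  · left
    rw [w_eq]
    have h0 : (0 : ℝ) < n := by exact_mod_cast h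
    have h1 : 0 < √(n : ℝ) := Real.sqrt_pos.2 h0
    have h2 : √(n : ℝ) ≤ √((n : ℝ) + 1) := Real.sqrt_le_sqrt (by linarith)
    exact one_div_le_one_div_of_le (by positivity) (by linarith)

theorem sum_w (M a : ℕ) : ∑ n ∈ Finset.range a, w (M + n) = √((M + a : ℕ) : ℝ) - √(M : ℝ) := by
  induction a with
  | zero => simp
  | succ a ih =>
    rw [Finset.sum_range_succ, ih]
    unfold w
    push_cast
    ring_nf

/-- The sum of the weights over a finite set of indices `≥ M` is at most the sum over the first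
indices `≥ M`. -/
theorem sum_set_w (M : ℕ) (S : Finset ℕ) (hS : ∀ n ∈ S, M ≤ n) :
    ∑ n ∈ S, w n ≤ √((M + S.card : ℕ) : ℝ) - √(M : ℝ) := by
  induction S using Finset.induction_on_max with
  | empty => simp
  | insert a s ha ih =>
    have hns : a ∉ s := fun h => lt_irrefl a (ha a h)
    rw [Finset.sum_insert hns, Finset.card_insert_of_notMem hns]
    have h1 := ih (fun n hn => hS n (Finset.mem_insert_of_mem hn))
    have hcard : M + s.card ≤ a := by
      have hsub : s ⊆ Finset.Ico M a := fun n hn =>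
        Finset.mem_Ico.2 ⟨hS n (Finset.mem_insert_of_mem hn), ha n hn⟩
      have h2 := Finset.card_le_card hsub
      rw [Nat.card_Ico] at h2
      have h3 := hS a (Finset.mem_insert_self a s)
      omega
    have h4 : w a ≤ w (M + s.card) := w_anti hcard
    have h5 : w (M + s.card) = √((M + (s.card + 1) : ℕ) : ℝ) - √((M + s.card : ℕ) : ℝ) := by
      unfold w
      push_cast
      ring_nf
    linarith

/-- The key scalar inequality. -/
theorem key_scalar (M a : ℕ) {s : ℝ} (hs : 0 ≤ s) (hsM : s ≤ M) :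
    2 / √(M : ℝ) * s + 2 * (√((M + a : ℕ) : ℝ) - √(M : ℝ)) ≤
      2 / √((M + a : ℕ) : ℝ) * (s + a) := by
  rcases Nat.eq_zero_or_pos M with h | h
  · subst h
    have hs0 : s = 0 := le_antisymm (by simpa using hsM) hs
    subst hs0
    rcases Nat.eq_zero_or_pos a with h | h
    · subst h; simp
    · have h1 : 0 < √(a : ℝ) := Real.sqrt_pos.2 (by exact_mod_cast h)
      have h2 : √(a : ℝ) * √(a : ℝ) = a := Real.mul_self_sqrt (by positivity)
      simp only [Nat.cast_zero, Real.sqrt_zero, div_zero, zero_mul, zero_add, sub_zero]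
      rw [div_mul_eq_mul_div, le_div_iff₀ h1]
      nlinarith
  · have hM : (0 : ℝ) < M := by exact_mod_cast h
    have h1 : 0 < √(M : ℝ) := Real.sqrt_pos.2 hM
    have h2 : √(M : ℝ) * √(M : ℝ) = M := Real.mul_self_sqrt hM.le
    have hle : √(M : ℝ) ≤ √((M + a : ℕ) : ℝ) := Real.sqrt_le_sqrt (by push_cast; linarith [(Nat.cast_nonneg a : (0 : ℝ) ≤ a)])
    have h3 : √((M + a : ℕ) : ℝ) * √((M + a : ℕ) : ℝ) = M + a := by
      rw [Real.mul_self_sqrt (by positivity)]
      push_cast
      ring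
    have h4 : 0 < √((M + a : ℕ) : ℝ) := h1.trans_le hle
    set p := √(M : ℝ)
    set q := √((M + a : ℕ) : ℝ)
    have e1 : 2 / q * (s + a) - (2 / p * s + 2 * (q - p)) = 2 * (M - s) * (1 / p - 1 / q) := by
      have ha : (a : ℝ) = q * q - p * p := by rw [h3, h2]; ring
      have hM' : (M : ℝ) = p * p := h2.symm
      rw [ha, hM']
      field_simp
      ring
    have e2 : 0 ≤ 1 / p - 1 / q := by
      rw [sub_nonneg]
      exact one_div_le_one_div_of_le h1 hle
    have e3 : 0 ≤ 2 * (M - s) * (1 / p - 1 / q) := by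
      apply mul_nonneg _ e2
      linarith
    linarith

end Run7.h521.PA
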